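import Pool.Agent.TH97.ST.Top
import Pool.Agent.TH54.BU.BurnDef

/-!
# The group `A / ⟨z ^ p⟩` of Adian and Olshanskii satisfies the hypotheses

Helper97, for MP_727953_al.
-/

set_option autoImplicit false

open Set Cardinal

namespace Pool.Agent.TH97.ST

open Pool.Agent.TH54.BU

section cent

variable {A B : Type*} [Group A] [Group B] {p : ℕ} (φ : A →* B) {z : A}

/-- elements which commute modulo the centre lie over the same cyclic group -/
lemma mem_of_comm (hp : p.Prime) (hker : φ.ker = Subgroup.zpowers z) (hz : ∀ a, a * z = z * a)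
    (hzinf : ¬ IsOfFinOrder z)
    (hpow : ∀ a : A, a ∉ Subgroup.zpowers z → ∃ k : ℤ, a ^ p = z ^ k ∧ ¬ (p : ℤ) ∣ k)
    {x y : A} (hx : x ∉ Subgroup.zpowers z) (hy : y ∉ Subgroup.zpowers z)
    (h : x * y * x⁻¹ * y⁻¹ ∈ Subgroup.zpowers z) : φ y ∈ Subgroup.zpowers (φ x) := by
  have hinj : Function.Injective fun n : ℤ => z ^ n := by
    rw [injective_zpow_iff_not_isOfFinOrder]
    exact hzinf
  have hzc : ∀ (n : ℤ) (a : A), Commute (z ^ n) a := by
    intro n a
    exact Commute.zpow_left (hz a).symm n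
  obtain ⟨m, hm⟩ := Subgroup.mem_zpowers_iff.1 h
  obtain ⟨k, hk, hpk⟩ := hpow x hx
  obtain ⟨l, hl, hpl⟩ := hpow y hy
  have e1 : x * y * x⁻¹ = z ^ m * y := by rw [hm]; group
  have e2 : (x * y * x⁻¹) ^ p = y ^ p := by
    rw [conj_pow, hl, ← (hzc l x).eq]; group
  have e3 : z ^ (m * p) = z ^ (0 : ℤ) := by
    have h1 : (z ^ m * y) ^ p = y ^ p := by rw [← e1, e2]
    rw [(hzc m y).mul_pow, ← zpow_natCast (z ^ m), ← zpow_mul] at h1
    rw [zpow_zero]
    exact mul_eq_right.mp h1
  have hm0 : m = 0 := by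
    have h1 := hinj e3
    rcases mul_eq_zero.1 h1 with h2 | h2
    · exact h2
    · exact absurd (by exact_mod_cast h2) hp.ne_zero
  have hxy : Commute x y := by
    rw [hm0, zpow_zero, one_mul] at e1
    exact mul_inv_eq_iff_eq_mul.mp e1
  have hw : (x ^ l * y ^ (-k)) ^ p = 1 := by
    rw [((hxy.zpow_left l).zpow_right (-k)).mul_pow, ← zpow_natCast, ← zpow_natCast, ← zpow_mul,
      ← zpow_mul, mul_comm l, mul_comm (-k), zpow_mul, zpow_mul, zpow_natCast, zpow_natCast, hk, hl,
      ← zpow_mul, ← zpow_mul, ← zpow_add]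
    have : k * l + l * -k = 0 := by ring
    rw [this, zpow_zero]
  have hw1 : x ^ l * y ^ (-k) ∈ Subgroup.zpowers z := by
    by_contra hne
    obtain ⟨j, hj, hpj⟩ := hpow _ hne
    rw [hw] at hj
    have : (0 : ℤ) = j := hinj (by simpa using hj)
    exact hpj (this ▸ dvd_zero _)
  rw [← hker, MonoidHom.mem_ker, map_mul, map_zpow, map_zpow, zpow_neg, mul_inv_eq_one] at hw1
  have hyp : φ y ^ (p : ℤ) = 1 := by
    rw [zpow_natCast, ← map_pow, hl, map_zpow]
    have : φ z = 1 := by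
      rw [← MonoidHom.mem_ker, hker]; exact Subgroup.mem_zpowers z
    rw [this, one_zpow]
  have hcop : IsCoprime k (p : ℤ) := by
    rw [isCoprime_comm]
    exact (Int.isCoprime_iff_gcd_eq_one.2 ((Nat.Prime.coprime_iff_not_dvd hp).2 fun h =>
      hpk (Int.natCast_dvd.2 h)))
  obtain ⟨α, β, hab⟩ := hcop
  refine Subgroup.mem_zpowers_iff.2 ⟨l * α, ?_⟩
  rw [zpow_mul, hw1, ← zpow_mul]
  have : φ y ^ (k * α) = φ y ^ (α * k + β * p) := by
    rw [zpow_add, mul_comm β, zpow_mul _ (p : ℤ), hyp, one_zpow, mul_one, mul_comm]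
  rw [this, hab, zpow_one]

end cent

/-- for every infinite set there is a group of the same cardinality which satisfies the algebraic
hypotheses -/
theorem exists_alg {p : ℕ} (hp : p.Prime) (h : Burn p) (I : Type) [Infinite I] :
    ∃ (H : Type) (_ : Group H), Nonempty (Alg H p) ∧ #H = #I := by
  obtain ⟨A, _, z, φ, hφ, hker, hz, hzinf, hpow, hcomm⟩ := h I
  have hzc : z ∈ Subgroup.center A := Subgroup.mem_center_iff.2 fun g => hz g
  have hPn : (Subgroup.zpowers (z ^ p)).Normal := by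
    refine ⟨fun n hn g => ?_⟩
    have hnc : n ∈ Subgroup.center A := by
      have : Subgroup.zpowers (z ^ p) ≤ Subgroup.center A := by
        rw [Subgroup.zpowers_le]
        exact pow_mem hzc p
      exact this hn
    rw [Subgroup.mem_center_iff.1 hnc g, mul_inv_cancel_right]
    exact hn
  set P : Subgroup A := Subgroup.zpowers (z ^ p) with hP
  have hPz : P ≤ Subgroup.zpowers z := by
    rw [hP, Subgroup.zpowers_le]
    exact pow_mem (Subgroup.mem_zpowers z) p
  have hzk : ∀ k : ℤ, ((z ^ k : A) : A ⧸ P) = 1 ↔ (p : ℤ) ∣ k := by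
    intro k
    rw [QuotientGroup.eq_one_iff, hP, Subgroup.mem_zpowers_iff]
    constructor
    · rintro ⟨j, hj⟩
      rw [← zpow_natCast, ← zpow_mul] at hj
      have hinj : Function.Injective fun n : ℤ => z ^ n := by
        rw [injective_zpow_iff_not_isOfFinOrder]
        exact hzinf
      exact ⟨j, (hinj hj).symm⟩
    · rintro ⟨j, rfl⟩
      exact ⟨j, by rw [← zpow_natCast, ← zpow_mul]⟩
  -- membership in the image of `⟨z⟩`
  have hmem : ∀ a : A, (a : A ⧸ P) ∈ Subgroup.zpowers ((z : A) : A ⧸ P) ↔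
      a ∈ Subgroup.zpowers z := by
    intro a
    constructor
    · rintro ⟨j, hj⟩
      have h1 : ((z ^ j : A) : A ⧸ P) = (a : A ⧸ P) := by rw [← hj]; simp
      rw [QuotientGroup.eq] at h1
      have h2 := hPz h1
      have h3 : a = z ^ j * ((z ^ j)⁻¹ * a) := by group
      rw [h3]
      exact mul_mem ⟨j, rfl⟩ h2
    · rintro ⟨j, rfl⟩
      exact ⟨j, by simp⟩
  have hCp : ∀ x ∈ Subgroup.zpowers ((z : A) : A ⧸ P), x ^ p = 1 := by
    rintro _ ⟨j, rfl⟩
    have h1 : ((z : A) : A ⧸ P) ^ p = 1 := by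
      have := (hzk p).2 (dvd_refl _)
      rw [zpow_natCast] at this
      exact this
    change (((z : A) : A ⧸ P) ^ j) ^ p = 1
    rw [← zpow_natCast, ← zpow_mul, mul_comm, zpow_mul, zpow_natCast, h1, one_zpow]
  have hCfin : (Subgroup.zpowers ((z : A) : A ⧸ P) : Set (A ⧸ P)).Finite := by
    apply finite_zpowers.2
    exact isOfFinOrder_iff_pow_eq_one.2 ⟨p, hp.pos, hCp _ (Subgroup.mem_zpowers _)⟩
  have hpw : ∀ x : A ⧸ P, x ∈ Subgroup.zpowers ((z : A) : A ⧸ P) ∨
      (x ^ p ∈ Subgroup.zpowers ((z : A) : A ⧸ P) ∧ x ^ p ≠ 1) := by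
    intro x
    obtain ⟨a, rfl⟩ := QuotientGroup.mk_surjective x
    by_cases ha : a ∈ Subgroup.zpowers z
    · left
      exact (hmem a).2 ha
    · right
      obtain ⟨k, hk, hpk⟩ := hpow a ha
      have h1 : ((a : A ⧸ P)) ^ p = ((z ^ k : A) : A ⧸ P) := by
        rw [← hk]; rfl
      rw [h1]
      exact ⟨⟨k, by simp⟩, fun h2 => hpk ((hzk k).1 h2)⟩
  -- the generators
  choose s hs using hφ
  set g : I → A := fun i => s (FreeGroup.of i : FreeGroup I) with hg
  have hφg : ∀ i, φ (g i) = (FreeGroup.of i : FreeGroup I) := fun i => hs _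
  obtain ⟨i₀, i₁, hi⟩ := exists_pair_ne I
  have hgn : ∀ i j, i ≠ j → ¬ φ (g i) * φ (g j) = φ (g j) * φ (g i) := by
    intro i j hij
    rw [hφg, hφg]
    exact hcomm i j hij
  have hgz : ∀ i, g i ∉ Subgroup.zpowers z := by
    intro i hi'
    obtain ⟨j, hj⟩ := exists_ne i
    rw [← hker, MonoidHom.mem_ker] at hi'
    apply hgn j i hj
    rw [hi', mul_one, one_mul]
  have hcent : ∀ x : A, (∀ i ∈ ({i₀, i₁} : Set I), x * g i * x⁻¹ * (g i)⁻¹ ∈ Subgroup.zpowers z) →
      x ∈ Subgroup.zpowers z := by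
    intro x hx
    by_contra hxz
    have h0 := mem_of_comm φ hp hker hz hzinf hpow hxz (hgz i₀) (hx i₀ (by simp))
    have h1 := mem_of_comm φ hp hker hz hzinf hpow hxz (hgz i₁) (hx i₁ (by simp))
    obtain ⟨a, ha⟩ := Subgroup.mem_zpowers_iff.1 h0
    obtain ⟨b, hb⟩ := Subgroup.mem_zpowers_iff.1 h1
    apply hgn i₀ i₁ hi
    rw [← ha, ← hb, ← zpow_add, ← zpow_add, add_comm]
  classical
  let D : Alg (A ⧸ P) p :=
    { Z := Subgroup.zpowers ((z : A) : A ⧸ P)
      fin := hCfin
      pow := by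
        intro u
        rcases hpw u with h1 | h1
        · rw [hCp u h1]; exact one_mem _
        · exact h1.1
      tor := by
        intro u hu
        rcases hpw u with h1 | h1
        · exact h1
        · exact absurd hu h1.2
      S := {((g i₀ : A) : A ⧸ P), ((g i₁ : A) : A ⧸ P)}
      cent := by
        intro x hx
        obtain ⟨a, rfl⟩ := QuotientGroup.mk_surjective x
        rw [hmem]
        apply hcent
        intro i hi'
        rw [← hmem]
        have hmem' : ((g i : A) : A ⧸ P) ∈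
            ({((g i₀ : A) : A ⧸ P), ((g i₁ : A) : A ⧸ P)} : Finset (A ⧸ P)) := by
          rw [Finset.mem_insert, Finset.mem_singleton]
          rcases hi' with h9 | h9
          · left; rw [h9]
          · right; rw [mem_singleton_iff.1 h9]
        exact hx _ hmem'
      nc := by
        refine ⟨((g i₀ : A) : A ⧸ P), ((g i₁ : A) : A ⧸ P), fun h1 => ?_⟩
        have h2 : ((g i₀ * g i₁ : A) : A ⧸ P) = ((g i₁ * g i₀ : A) : A ⧸ P) := h1
        rw [QuotientGroup.eq] at h2
        have h3 := hPz h2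
        rw [← hker, MonoidHom.mem_ker, map_mul, map_inv, map_mul, map_mul, inv_mul_eq_one] at h3
        exact hgn i₀ i₁ hi h3 }
  refine ⟨A ⧸ P, inferInstance, ⟨D⟩, le_antisymm ?_ ?_⟩
  · -- upper bound
    have h1 : #(A ⧸ P) ≤ #A := mk_le_of_surjective QuotientGroup.mk_surjective
    have h2 : #A ≤ #((FreeGroup I ⧸ powSub (FreeGroup I) p) × ℤ) := by
      refine mk_le_of_surjective (f := fun q => s q.1 * z ^ q.2) ?_
      intro a
      have h3 : (s (φ a))⁻¹ * a ∈ φ.ker := by
        rw [MonoidHom.mem_ker, map_mul, map_inv, hs, inv_mul_cancel]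
      rw [hker] at h3
      obtain ⟨k, hk⟩ := h3
      refine ⟨(φ a, k), ?_⟩
      change s (φ a) * z ^ k = a
      change z ^ k = (s (φ a))⁻¹ * a at hk
      rw [hk, mul_inv_cancel_left]
    have h3 : #((FreeGroup I ⧸ powSub (FreeGroup I) p)) ≤ #I := by
      refine (mk_le_of_surjective QuotientGroup.mk_surjective).trans ?_
      rw [mk_freeGroup]
      exact max_le le_rfl (aleph0_le_mk I)
    refine h1.trans (h2.trans ?_)
    rw [mk_prod, lift_id, lift_id]
    refine (mul_le_mul' h3 (mk_le_aleph0 (α := ℤ))).trans ?_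
    rw [mul_eq_left (aleph0_le_mk I) (aleph0_le_mk I) aleph0_ne_zero]
  · -- lower bound
    refine mk_le_of_injective (f := fun i => ((g i : A) : A ⧸ P)) ?_
    intro i j hij
    by_contra hne
    have h2 : ((g i : A) : A ⧸ P) = ((g j : A) : A ⧸ P) := hij
    rw [QuotientGroup.eq] at h2
    have h3 := hPz h2
    rw [← hker, MonoidHom.mem_ker, map_mul, map_inv, inv_mul_eq_one] at h3
    apply hgn i j hne
    rw [h3]

/-- the cardinality of the wreath product -/
lemma mk_wr {H : Type} {p : ℕ} [Fact p.Prime] (I : Type) [Infinite I] (h : #H = #I) :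
    #(Wr H p) = #I := by
  have hNZ : NeZero p := ⟨(Fact.out : p.Prime).ne_zero⟩
  have h1 : #(Wr H p) = #((ZMod p → H) × ZMod p) :=
    mk_congr ⟨fun x => (x.l, x.r), fun q => ⟨q.1, q.2⟩, fun _ => rfl, fun _ => rfl⟩
  have hI : ℵ₀ ≤ #I := aleph0_le_mk I
  rw [h1, mk_prod, lift_id, lift_id]
  have h2 : #(ZMod p → H) = #I := by
    rw [← power_def, h, mk_fintype (ZMod p)]
    rw [power_natCast]
    rw [ZMod.card]
    exact power_nat_eq hI (Fact.out : p.Prime).one_le
  rw [h2]
  exact mul_eq_left hI ((mk_le_aleph0 (α := ZMod p)).trans hI) (mk_ne_zero _)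

end Pool.Agent.TH97.ST
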