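import Pool.Agent.TH97.ST.Wr

/-!
# Separately continuous topologies on wreath products are discrete

Helper97, for MP_727953_al.
-/

set_option autoImplicit false

open Topology Set

namespace Pool.Agent.TH97.ST

/-- the algebraic hypotheses on the group `H`: `p`-th powers lie in a finite subgroup `Z`, elements
outside of `Z` have a nontrivial `p`-th power, and only the elements of `Z` commute modulo `Z` with
the elements of a finite set -/
structure Alg (H : Type*) [Group H] (p : ℕ) where
  Z : Subgroup H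
  fin : (Z : Set H).Finite
  pow : ∀ u : H, u ^ p ∈ Z
  tor : ∀ u : H, u ^ p = 1 → u ∈ Z
  S : Finset H
  cent : ∀ h : H, (∀ a ∈ S, h * a * h⁻¹ * a⁻¹ ∈ Z) → h ∈ Z
  nc : ∃ a b : H, a * b ≠ b * a

namespace Alg

open Wr

variable {H : Type*} [Group H] {p : ℕ}

/-- the finite subgroup of the elements of the base group with all coordinates in `Z` -/
def F (D : Alg H p) : Set (Wr H p) := {x | x.r = 0 ∧ ∀ k, x.l k ∈ D.Z}

lemma F_fin [Fact p.Prime] (D : Alg H p) : D.F.Finite := by
  have : NeZero p := ⟨(Fact.out : p.Prime).ne_zero⟩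
  have h1 : {g : ZMod p → H | ∀ k, g k ∈ (D.Z : Set H)}.Finite :=
    Set.Finite.pi' fun _ => D.fin
  refine (h1.image fun g : ZMod p → H => (⟨g, 0⟩ : Wr H p)).subset ?_
  rintro x ⟨hx, hx'⟩
  refine ⟨x.l, hx', ?_⟩
  ext k
  · rfl
  · exact hx.symm

variable [Fact p.Prime]

lemma phi_mem (D : Alg H p) (h2 : p ≠ 2) (i : ZMod p) (u : H) :
    f^[p] (at_ i u : Wr H p) ∈ D.F := by
  rw [f_iter_p h2]
  refine ⟨rfl, fun k => ?_⟩
  change u ^ (if k - i = 0 then (0 : ℤ) else (-1) ^ (k - i).val * (p.choose (k - i).val : ℤ)) ∈ D.Z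
  split_ifs with h
  · rw [zpow_zero]; exact D.Z.one_mem
  · have h1 : (k - i).val ≠ 0 := by rwa [Ne, ZMod.val_eq_zero]
    have : NeZero p := ⟨(Fact.out : p.Prime).ne_zero⟩
    obtain ⟨m, hm⟩ := (Fact.out : p.Prime).dvd_choose_self h1 (ZMod.val_lt (k - i))
    rw [hm, mul_comm]
    push_cast
    rw [mul_assoc, zpow_mul, zpow_natCast]
    exact Subgroup.zpow_mem _ (D.pow u) _

lemma of_phi (D : Alg H p) (h2 : p ≠ 2) (i : ZMod p) (u : H)
    (h : f^[p] (at_ i u : Wr H p) = 1) : u ∈ D.Z := by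
  have hp : 1 < p := (Fact.out : p.Prime).one_lt
  have : Fact (1 < p) := ⟨hp⟩
  rw [f_iter_p h2] at h
  have h1 := congrFun (congrArg Wr.l h) (i + 1)
  change u ^ (if i + 1 - i = 0 then (0 : ℤ) else
    (-1) ^ (i + 1 - i).val * (p.choose (i + 1 - i).val : ℤ)) = 1 at h1
  rw [add_sub_cancel_left, if_neg one_ne_zero, ZMod.val_one, Nat.choose_one_right, pow_one,
    neg_one_mul, zpow_neg, inv_eq_one, zpow_natCast] at h1
  exact D.tor u h1

/-- **Separately continuous topologies on the wreath product are discrete.** -/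
theorem discrete (D : Alg H p) (h2 : p ≠ 2) (τ : TopologicalSpace (Wr H p)) [T1Space (Wr H p)]
    (hl : ∀ a : Wr H p, Continuous fun x => a * x) (hr : ∀ a : Wr H p, Continuous fun x => x * a)
    (hc : ∀ a : Wr H p, Continuous fun x => x * a * x⁻¹ * a⁻¹) : τ = ⊥ := by
  have hNZ : NeZero p := ⟨(Fact.out : p.Prime).ne_zero⟩
  have hp : 1 < p := (Fact.out : p.Prime).one_lt
  have hF1 : Fact (1 < p) := ⟨hp⟩
  -- conjugation is continuous
  have hcj : ∀ a : Wr H p, Continuous fun x => x * a * x⁻¹ := by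
    intro a
    have h1 := (hr a).comp (hc a)
    refine h1.congr fun x => ?_
    simp only [Function.comp_apply]
    group
  -- the cosets of the base group are closed
  have hE : ∀ s : ZMod p, IsClosed {x : Wr H p | x.r = s} := by
    intro s
    have e : {x : Wr H p | x.r = s} = ⋂ b : H, ⋂ g : H, ⋂ j : {j : ZMod p // j ≠ s},
        {x : Wr H p | (x * at_ 0 b * x⁻¹) * at_ j.1 g * (x * at_ 0 b * x⁻¹)⁻¹ * (at_ j.1 g)⁻¹
          = 1} := by
      ext x
      simp only [mem_ofPred_eq, mem_iInter]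
      constructor
      · intro hx b g j
        rw [conj_at x 0, zero_add]
        rw [comm_at _ rfl]
        have h5 : (at_ x.r (x.l x.r * b * (x.l x.r)⁻¹) : Wr H p).l j.1 = 1 := by
          rw [at_l, Pi.mulSingle_eq_of_ne (by rw [hx]; exact j.2)]
        rw [h5]
        ext k
        · simp
        · rfl
      · intro hx
        by_contra hne
        obtain ⟨a, b, hab⟩ := D.nc
        have h1 := hx ((x.l x.r)⁻¹ * a * x.l x.r) b ⟨x.r, hne⟩
        rw [conj_at x 0, zero_add, comm_at _ rfl] at h1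
        have h3 := congrFun (congrArg Wr.l h1) x.r
        rw [at_l, at_l, Pi.mulSingle_eq_same, Pi.mulSingle_eq_same, one_l] at h3
        apply hab
        have h4 : x.l x.r * ((x.l x.r)⁻¹ * a * x.l x.r) * (x.l x.r)⁻¹ = a := by group
        rw [h4, mul_inv_eq_one, mul_inv_eq_iff_eq_mul] at h3
        exact h3
    rw [e]
    refine isClosed_iInter fun b => isClosed_iInter fun g => isClosed_iInter fun j => ?_
    exact isClosed_singleton.preimage ((hc (at_ j.1 g)).comp (hcj (at_ 0 b)))
  have hB : IsOpen {x : Wr H p | x.r = 0} := by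
    have e : {x : Wr H p | x.r = 0} = (⋃ s : {s : ZMod p // s ≠ 0}, {x : Wr H p | x.r = s.1})ᶜ := by
      ext x
      simp only [mem_ofPred_eq, mem_compl_iff, mem_iUnion, not_exists]
      constructor
      · intro hx s hs
        exact s.2 (by rw [← hs, hx])
      · intro hx
        by_contra hne
        exact hx ⟨x.r, hne⟩ rfl
    rw [e]
    exact (isClosed_iUnion_of_finite fun s : {s : ZMod p // s ≠ 0} => hE s.1).isOpen_compl
  -- the maps into the finite set
  set Φ : H → ZMod p → Wr H p → Wr H p := fun a i x =>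
    f^[p] (x * at_ i a * x⁻¹ * (at_ i a)⁻¹) with hΦ
  have hΦc : ∀ a i, Continuous (Φ a i) := by
    intro a i
    have h1 : Continuous (f : Wr H p → Wr H p) := hc t
    exact (h1.iterate p).comp (hc (at_ i a))
  have hΦ1 : ∀ a i, Φ a i 1 = 1 := by
    intro a i
    have h1 : ∀ n, f^[n] (1 : Wr H p) = 1 := by
      intro n
      induction n with
      | zero => rfl
      | succ n ih => rw [Function.iterate_succ_apply', ih, f_one]
    have h3 : (1 : Wr H p) * at_ i a * (1 : Wr H p)⁻¹ * (at_ i a)⁻¹ = 1 := by group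
    simp only [hΦ]
    rw [h3, h1]
  have hU : ∀ a i, IsOpen {x : Wr H p | x.r = 0 ∧ Φ a i x = 1} := by
    intro a i
    have e : {x : Wr H p | x.r = 0 ∧ Φ a i x = 1} =
        {x : Wr H p | x.r = 0} ∩ (Φ a i ⁻¹' (D.F \ {1}))ᶜ := by
      ext x
      simp only [mem_ofPred_eq, mem_inter_iff, mem_compl_iff, mem_preimage, mem_sdiff,
        mem_singleton_iff, not_and, not_not]
      constructor
      · rintro ⟨hx, hx'⟩
        exact ⟨hx, fun _ => hx'⟩
      · rintro ⟨hx, hx'⟩
        refine ⟨hx, hx' ?_⟩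
        simp only [hΦ]
        rw [comm_at x hx]
        exact D.phi_mem h2 _ _
    rw [e]
    exact hB.inter ((D.F_fin.subset sdiff_subset).isClosed.preimage (hΦc a i)).isOpen_compl
  -- the finite open set
  set U : Set (Wr H p) := {x : Wr H p | x.r = 0} ∩
    ⋂ i : ZMod p, ⋂ a ∈ D.S, {x : Wr H p | x.r = 0 ∧ Φ a i x = 1} with hUd
  have hUo : IsOpen U := by
    refine hB.inter (isOpen_iInter_of_finite fun i => ?_)
    exact D.S.finite_toSet.isOpen_biInter fun a _ => hU a i
  have hUF : U ⊆ D.F := by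
    rintro x ⟨hx, hx'⟩
    refine ⟨hx, fun k => D.cent _ fun a ha => ?_⟩
    simp only [mem_iInter] at hx'
    have h1 := (hx' k a ha).2
    simp only [hΦ] at h1
    rw [comm_at x hx] at h1
    exact D.of_phi h2 _ _ h1
  have h1U : (1 : Wr H p) ∈ U := by
    refine ⟨rfl, ?_⟩
    simp only [mem_iInter]
    intro i a _
    exact ⟨rfl, hΦ1 a i⟩
  have h1 : IsOpen ({1} : Set (Wr H p)) := by
    have e : ({1} : Set (Wr H p)) = U \ (D.F \ {1}) := by
      ext x
      constructor
      · rintro rfl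
        exact ⟨h1U, fun h => h.2 rfl⟩
      · rintro ⟨h3, h4⟩
        by_contra h5
        exact h4 ⟨hUF h3, h5⟩
    rw [e]
    exact hUo.sdiff (D.F_fin.subset sdiff_subset).isClosed
  -- translations
  apply le_antisymm _ bot_le
  intro s _
  have e : s = ⋃ g ∈ s, (fun x => g⁻¹ * x) ⁻¹' {1} := by
    ext x
    simp only [mem_iUnion, mem_preimage, mem_singleton_iff, exists_prop]
    constructor
    · intro hx
      exact ⟨x, hx, inv_mul_cancel x⟩
    · rintro ⟨g, hg, hgx⟩
      rw [inv_mul_eq_one] at hgx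
      rwa [← hgx]
  change IsOpen s
  rw [e]
  exact isOpen_biUnion fun g _ => h1.preimage (hl g⁻¹)

end Alg

end Pool.Agent.TH97.ST
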