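import Mathlib

/-!
# Wreath products with a cyclic group of prime order and separately continuous commutators

Helper97, for MP_727953_al. `Wr H p` is the wreath product of `H` with the cyclic group of order `p`.
-/

set_option autoImplicit false

namespace Pool.Agent.TH97.ST

/-- the wreath product of `H` and `ℤ / p` -/
@[ext] structure Wr (H : Type*) (p : ℕ) where
  /-- the coordinates in the base group -/
  l : ZMod p → H
  /-- the component in the cyclic group -/
  r : ZMod p

namespace Wr

variable {H : Type*} [Group H] {p : ℕ}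

instance : Mul (Wr H p) := ⟨fun a b => ⟨fun k => a.l k * b.l (k - a.r), a.r + b.r⟩⟩
instance : One (Wr H p) := ⟨⟨fun _ => 1, 0⟩⟩
instance : Inv (Wr H p) := ⟨fun a => ⟨fun k => (a.l (k + a.r))⁻¹, -a.r⟩⟩

@[simp] lemma mul_l (a b : Wr H p) (k : ZMod p) : (a * b).l k = a.l k * b.l (k - a.r) := rfl
@[simp] lemma mul_r (a b : Wr H p) : (a * b).r = a.r + b.r := rfl
@[simp] lemma one_l (k : ZMod p) : (1 : Wr H p).l k = 1 := rfl
@[simp] lemma one_r : (1 : Wr H p).r = 0 := rfl
@[simp] lemma inv_l (a : Wr H p) (k : ZMod p) : (a⁻¹).l k = (a.l (k + a.r))⁻¹ := rfl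
@[simp] lemma inv_r (a : Wr H p) : (a⁻¹).r = -a.r := rfl

instance : Group (Wr H p) := Group.ofLeftAxioms
  (by
    intro a b c
    ext k
    · simp only [mul_l, mul_r, mul_assoc, sub_add_eq_sub_sub]
    · simp [add_assoc])
  (by
    intro a
    ext k
    · simp
    · simp)
  (by
    intro a
    ext k
    · simp
    · simp)

/-- the element of the base group with the single coordinate `a` at the place `i` -/
def at_ (i : ZMod p) (a : H) : Wr H p := ⟨Pi.mulSingle i a, 0⟩

/-- the generator of the cyclic group -/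
def t : Wr H p := ⟨fun _ => 1, 1⟩

@[simp] lemma at_l (i k : ZMod p) (a : H) :
    (at_ i a : Wr H p).l k = (Pi.mulSingle i a : ZMod p → H) k := rfl
@[simp] lemma at_r (i : ZMod p) (a : H) : (at_ i a : Wr H p).r = 0 := rfl
@[simp] lemma t_l (k : ZMod p) : (t : Wr H p).l k = 1 := rfl
@[simp] lemma t_r : (t : Wr H p).r = 1 := rfl

/-- conjugates of an element with one coordinate -/
lemma conj_at (x : Wr H p) (i : ZMod p) (a : H) :
    x * at_ i a * x⁻¹ = at_ (i + x.r) (x.l (i + x.r) * a * (x.l (i + x.r))⁻¹) := by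
  ext k
  · simp only [mul_l, at_l, mul_r, at_r, inv_l, add_zero, sub_add_cancel]
    by_cases h : k = i + x.r
    · subst h
      rw [add_sub_cancel_right, Pi.mulSingle_eq_same, Pi.mulSingle_eq_same]
    · rw [Pi.mulSingle_eq_of_ne h, Pi.mulSingle_eq_of_ne (by
        intro h'; exact h (by rw [← h', sub_add_cancel])), mul_one, mul_inv_cancel]
  · simp

/-- the commutator with an element with one coordinate -/
lemma comm_at (x : Wr H p) (hx : x.r = 0) (i : ZMod p) (a : H) :
    x * at_ i a * x⁻¹ * (at_ i a)⁻¹ = at_ i (x.l i * a * (x.l i)⁻¹ * a⁻¹) := by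
  rw [conj_at, hx, add_zero]
  ext k
  · simp only [mul_l, at_l, at_r, inv_l, sub_zero, add_zero]
    by_cases h : k = i
    · subst h
      simp
    · rw [Pi.mulSingle_eq_of_ne h, Pi.mulSingle_eq_of_ne h, Pi.mulSingle_eq_of_ne h]
      simp
  · simp

/-- the commutator with the generator of the cyclic group -/
lemma comm_t (x : Wr H p) (hx : x.r = 0) :
    x * t * x⁻¹ * t⁻¹ = ⟨fun k => x.l k * (x.l (k - 1))⁻¹, 0⟩ := by
  ext k
  · simp [hx]
  · simp [hx]

/-- the exponents of the iterated commutators -/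
def ex (p : ℕ) (n : ℕ) (k : ZMod p) : ℤ := (-1) ^ k.val * (n.choose k.val : ℤ)

lemma ex_zero [NeZero p] (k : ZMod p) : ex p 0 k = if k = 0 then 1 else 0 := by
  unfold ex
  split_ifs with h
  · subst h; simp
  · have h1 : k.val ≠ 0 := by rwa [Ne, ZMod.val_eq_zero]
    obtain ⟨m, hm⟩ := Nat.exists_eq_succ_of_ne_zero h1
    rw [hm]
    simp

lemma val_sub_one' [Fact p.Prime] {k : ZMod p} (hk : k ≠ 0) : (k - 1).val + 1 = k.val := by
  have h1 : k.val ≠ 0 := by rwa [Ne, ZMod.val_eq_zero]
  have hp : 1 < p := (Fact.out : p.Prime).one_lt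
  have : Fact (1 < p) := ⟨hp⟩
  have h2 : (k - 1).val = k.val - 1 := by
    rw [ZMod.val_sub (by rw [ZMod.val_one]; omega), ZMod.val_one]
  omega

/-- the difference equation, for exponents up to `p - 1` -/
lemma ex_succ [Fact p.Prime] {n : ℕ} (hn : n + 1 < p) (k : ZMod p) :
    ex p n k - ex p n (k - 1) = ex p (n + 1) k := by
  have hp : 1 < p := (Fact.out : p.Prime).one_lt
  have : Fact (1 < p) := ⟨hp⟩
  by_cases hk : k = 0
  · subst hk
    unfold ex
    have h1 : (0 - 1 : ZMod p).val = p - 1 := by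
      rw [zero_sub, ZMod.neg_val, if_neg one_ne_zero, ZMod.val_one]
    rw [h1, Nat.choose_eq_zero_of_lt (by omega : n < p - 1)]
    simp
  · have h1 := val_sub_one' hk
    unfold ex
    obtain ⟨m, hm⟩ : ∃ m, (k - 1).val = m := ⟨_, rfl⟩
    rw [← h1, hm, Nat.choose_succ_succ, pow_succ]
    push_cast
    ring

/-- the last step: the exponents become divisible by `p` -/
lemma ex_last [Fact p.Prime] (h2 : p ≠ 2) (k : ZMod p) :
    ex p (p - 1) k - ex p (p - 1) (k - 1) = if k = 0 then 0 else (-1) ^ k.val * (p.choose k.val : ℤ) := by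
  have hp : 1 < p := (Fact.out : p.Prime).one_lt
  have : Fact (1 < p) := ⟨hp⟩
  split_ifs with hk
  · subst hk
    unfold ex
    have h1 : (0 - 1 : ZMod p).val = p - 1 := by
      rw [zero_sub, ZMod.neg_val, if_neg one_ne_zero, ZMod.val_one]
    have h3 : Even (p - 1) := by
      rcases (Fact.out : p.Prime).eq_two_or_odd' with h | h
      · exact absurd h h2
      · exact Nat.Odd.sub_odd h odd_one
    rw [h1, Nat.choose_self, h3.neg_one_pow]
    simp
  · have h1 := val_sub_one' hk
    unfold ex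
    obtain ⟨m, hm⟩ : ∃ m, (k - 1).val = m := ⟨_, rfl⟩
    have hpp : p = (p - 1) + 1 := by omega
    rw [← h1, hm, hpp, Nat.choose_succ_succ, ← hpp, pow_succ]
    push_cast
    ring

/-- the commutator map with the generator of the cyclic group -/
def f (x : Wr H p) : Wr H p := x * t * x⁻¹ * t⁻¹

lemma f_iter [Fact p.Prime] (i : ZMod p) (u : H) : ∀ n, n < p →
    f^[n] (at_ i u : Wr H p) = ⟨fun k => u ^ ex p n (k - i), 0⟩ := by
  intro n
  induction n with
  | zero =>
    intro _
    ext k
    · simp only [Function.iterate_zero, id_eq, at_l]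
      rw [ex_zero]
      by_cases h : k = i
      · subst h; simp
      · rw [Pi.mulSingle_eq_of_ne h, if_neg (sub_ne_zero.mpr h), zpow_zero]
    · simp
  | succ n ih =>
    intro hn
    rw [Function.iterate_succ_apply', ih (by omega)]
    unfold f
    rw [comm_t _ rfl]
    ext k
    · change u ^ ex p n (k - i) * (u ^ ex p n (k - 1 - i))⁻¹ = u ^ ex p (n + 1) (k - i)
      rw [← zpow_neg, ← zpow_add, ← ex_succ hn (k - i)]
      congr 1
      have : k - 1 - i = k - i - 1 := by ring
      rw [this]; ring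
    · rfl

/-- the `p`-fold iterate: all exponents are divisible by `p` -/
lemma f_iter_p [Fact p.Prime] (h2 : p ≠ 2) (i : ZMod p) (u : H) :
    f^[p] (at_ i u : Wr H p) = ⟨fun k => u ^ (if k - i = 0 then 0 else
      (-1) ^ (k - i).val * (p.choose (k - i).val : ℤ)), 0⟩ := by
  have hp : 1 < p := (Fact.out : p.Prime).one_lt
  have hpp : f^[p] (at_ i u : Wr H p) = f (f^[p - 1] (at_ i u)) := by
    have h1 : f^[(p - 1) + 1] (at_ i u : Wr H p) = f (f^[p - 1] (at_ i u)) :=
      Function.iterate_succ_apply' _ _ _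
    rwa [Nat.sub_add_cancel hp.le] at h1
  rw [hpp, f_iter i u (p - 1) (by omega)]
  unfold f
  rw [comm_t _ rfl]
  ext k
  · change u ^ ex p (p - 1) (k - i) * (u ^ ex p (p - 1) (k - 1 - i))⁻¹ =
      u ^ (if k - i = 0 then (0 : ℤ) else (-1) ^ (k - i).val * (p.choose (k - i).val : ℤ))
    rw [← zpow_neg, ← zpow_add, ← ex_last h2 (k - i)]
    congr 1
    have : k - 1 - i = k - i - 1 := by ring
    rw [this]; ring
  · rfl

lemma f_one : f (1 : Wr H p) = 1 := by
  unfold f; group

end Wr

end Pool.Agent.TH97.ST
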